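import Pool.Agent.Helper7.KT.St

set_option autoImplicit false

namespace Pool.Agent.Helper97.KT

open Finset SimpleGraph Filter Topology
open EX Pool.Agent.Helper7.KT

open scoped Classical

noncomputable section

theorem hEMT : StEMT := by
  intro U _ G s t hB V H hH a v ha hv hav Q χ hT hinj hχa hχv hrich
  obtain ⟨A, hA, hs, ht⟩ := hB
  obtain ⟨i⟩ : Nonempty ({u // u ∈ A} ↪ Fin s) :=
    Function.Embedding.nonempty_of_card_le (by simpa using hs)
  obtain ⟨j⟩ : Nonempty ({u // u ∉ A} ↪ Fin t) :=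
    Function.Embedding.nonempty_of_card_le (by
      rw [Fintype.card_subtype, Fintype.card_fin]
      exact ht)
  let φ : U → V := fun u => if h : u ∈ A then a (i ⟨u, h⟩) else v (j ⟨u, h⟩)
  have φA : ∀ u : {u // u ∈ A}, φ u.1 = a (i u) := fun u => dif_pos u.2
  have φB : ∀ u : {u // u ∉ A}, φ u.1 = v (j u) := fun u => dif_neg u.2
  have hφ : Function.Injective φ := by
    intro u w huw
    by_cases hu : u ∈ A <;> by_cases hw : w ∈ A
    · have h1 := φA ⟨u, hu⟩
      have h2 := φA ⟨w, hw⟩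
      simp only at h1 h2
      rw [h1, h2] at huw
      exact congrArg Subtype.val (i.injective (ha huw))
    · have h1 := φA ⟨u, hu⟩
      have h2 := φB ⟨w, hw⟩
      simp only at h1 h2
      rw [h1, h2] at huw
      exact absurd huw (hav _ _)
    · have h1 := φB ⟨u, hu⟩
      have h2 := φA ⟨w, hw⟩
      simp only at h1 h2
      rw [h1, h2] at huw
      exact absurd huw.symm (hav _ _)
    · have h1 := φB ⟨u, hu⟩
      have h2 := φB ⟨w, hw⟩
      simp only at h1 h2
      rw [h1, h2] at huw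
      exact congrArg Subtype.val (j.injective (hv huw))
  have key : ∀ (u w : {u // u ∈ A}) (u' w' : {u // u ∉ A}), s(u.1, u'.1) = s(w.1, w'.1) →
      u = w ∧ u' = w' := by
    intro u w u' w' h
    rcases Sym2.eq_iff.1 h with ⟨h1, h2⟩ | ⟨h1, h2⟩
    · exact ⟨Subtype.ext h1, Subtype.ext h2⟩
    · exact absurd (h1 ▸ u.2) w'.2
  have hD : ∀ e : Sym2 U, ∃ D : Finset V, ∀ (u : {u // u ∈ A}) (u' : {u // u ∉ A}),
      e = s(u.1, u'.1) → D = {a (i u), v (j u'), χ (i u) (j u')} := by
    intro e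
    by_cases h : ∃ (u : {u // u ∈ A}) (u' : {u // u ∉ A}), e = s(u.1, u'.1)
    · obtain ⟨u, u', he⟩ := h
      refine ⟨{a (i u), v (j u'), χ (i u) (j u')}, ?_⟩
      intro w w' he'
      obtain ⟨h1, h2⟩ := key u w u' w' (he ▸ he')
      rw [h1, h2]
    · exact ⟨∅, fun u u' he => absurd ⟨u, u', he⟩ h⟩
  choose D hD using hD
  refine embed 2 (by norm_num) H hH G φ hφ
    (G.edgeFinset.filter fun e => ∃ (u : {u // u ∈ A}) (u' : {u // u ∉ A}),
      e = s(u.1, u'.1) ∧ Q (i u) (j u')) ?_ D ?_ ?_ ?_ ?_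
  · intro e he
    exact mem_edgeFinset.1 (mem_filter.1 he).1
  · intro e he
    obtain ⟨-, u, u', he, hQ⟩ := mem_filter.1 he
    rw [hD e u u' he]
    exact (hT _ _ hQ).2.2.2
  · intro e he x
    obtain ⟨-, u, u', he, hQ⟩ := mem_filter.1 he
    rw [hD e u u' he, he, Sym2.mem_iff]
    simp only [mem_insert, mem_singleton]
    constructor
    · rintro (h | h | h)
      · rw [← φA u] at h
        exact Or.inl (hφ h)
      · rw [← φB u'] at h
        exact Or.inr (hφ h)
      · exfalso
        by_cases hx : x ∈ A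
        · have h1 := φA ⟨x, hx⟩
          simp only at h1
          rw [h1] at h
          exact hχa _ _ _ hQ h.symm
        · have h1 := φB ⟨x, hx⟩
          simp only at h1
          rw [h1] at h
          exact hχv _ _ _ hQ h.symm
    · rintro (h | h)
      · exact Or.inl (h ▸ φA u)
      · exact Or.inr (Or.inl (h ▸ φB u'))
  · intro e he e' he' hne x hx hx'
    obtain ⟨-, u, u', he, hQ⟩ := mem_filter.1 he
    obtain ⟨-, w, w', he', hQ'⟩ := mem_filter.1 he'
    rw [hD e u u' he] at hx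
    rw [hD e' w w' he'] at hx'
    simp only [mem_insert, mem_singleton] at hx hx'
    rcases hx with hx | hx | hx
    · exact ⟨u.1, by rw [φA u, hx]⟩
    · exact ⟨u'.1, by rw [φB u', hx]⟩
    · rcases hx' with hx' | hx' | hx'
      · exact ⟨w.1, by rw [φA w, hx']⟩
      · exact ⟨w'.1, by rw [φB w', hx']⟩
      · exfalso
        obtain ⟨h1, h2⟩ := hinj _ _ _ _ hQ hQ' (hx.symm.trans hx')
        have h3 := i.injective h1
        have h4 := j.injective h2
        apply hne
        rw [he, he', h3, h4]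
  · intro u w huw hnQ
    by_cases hu : u ∈ A
    · have hw : w ∉ A := (hA u w huw).1 hu
      have hq : ¬ Q (i ⟨u, hu⟩) (j ⟨w, hw⟩) := by
        intro h
        apply hnQ
        refine mem_filter.2 ⟨mem_edgeFinset.2 huw, ⟨u, hu⟩, ⟨w, hw⟩, rfl, h⟩
      have h1 := (hrich _ _ hq).2
      have h2 := φA ⟨u, hu⟩
      have h3 := φB ⟨w, hw⟩
      simp only at h2 h3
      rw [h2, h3]
      exact h1
    · have hw : w ∈ A := by
        by_contra hw
        exact hu ((hA u w huw).2 hw)
      have hq : ¬ Q (i ⟨w, hw⟩) (j ⟨u, hu⟩) := by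
        intro h
        apply hnQ
        refine mem_filter.2 ⟨mem_edgeFinset.2 huw, ⟨w, hw⟩, ⟨u, hu⟩, Sym2.eq_swap, h⟩
      have h1 := (hrich _ _ hq).2
      have h2 := φA ⟨w, hw⟩
      have h3 := φB ⟨u, hu⟩
      simp only at h2 h3
      rw [h2, h3]
      exact FB.Rich.symm h1

end

end Pool.Agent.Helper97.KT
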